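import Pool.Agent.X187.HG.NC

open Filter Topology MeasureTheory
open scoped ENNReal

namespace Pool.Agent.X187.HG

lemma un_ne : (un 1 : X) ≠ 0 := by
  intro h
  have h1 := ev_un_one 1
  rw [h] at h1
  simp [ev, coef] at h1

instance : Nontrivial X := ⟨⟨un 1, 0, un_ne⟩⟩

lemma visits_frequently {F : X} {a z : ℂ}
    (h : Dense (Set.range fun n : ℕ => (fun G => a • T z G)^[n] F)) (N : ℕ) :
    ∃ n, N ≤ n ∧ a ^ n • T (n * z) F ∈ U0 := by
  classical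
  have hp : ∀ x : X, (𝓝[≠] x).NeBot := fun x => Module.punctured_nhds_neBot ℂ X x
  set t : Finset X := (Finset.range N).image (fun n => (fun G => a • T z G)^[n] F) with ht
  have h1 := h.diff_finset t
  obtain ⟨y, hyU, ⟨n, rfl⟩, hyt⟩ := h1.inter_open_nonempty U0 isOpen_U0 U0_nonempty
  refine ⟨n, ?_, ?_⟩
  · by_contra hn
    apply hyt
    rw [ht, Finset.mem_coe, Finset.mem_image]
    exact ⟨n, Finset.mem_range.2 (not_le.1 hn), rfl⟩
  · simp only at hyU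
    rwa [iter_formula] at hyU

theorem no_common (F : X) (h : ∀ a z : ℂ, a ≠ 0 → z ≠ 0 →
    Dense (Set.range fun n : ℕ => (fun G => a • T z G)^[n] F)) : False := by
  set f := ev (coef F) with hf
  -- f is not identically zero
  obtain ⟨z₀, hz₀⟩ : ∃ z₀, f z₀ ≠ 0 := by
    by_contra hcon
    push Not at hcon
    have hF : F = 0 := by
      apply ev_inj
      intro z
      rw [← hf, hcon z]
      simp [ev, coef]
    obtain ⟨n, -, hn⟩ := visits_frequently (h 1 1 one_ne_zero one_ne_zero) 0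
    rw [hF, map_zero, smul_zero] at hn
    have h1 := U0_close hn (w := 1) (by simp)
    have h2 : ev (coef (0 : X)) 1 = 0 := by simp [ev, coef]
    rw [h2] at h1
    norm_num at h1
  set L := |Real.log (sem 0 F / ‖f z₀‖)| with hL
  set κ := 18 + 4 * ‖z₀‖ with hκ
  set Z : ℕ → Set ℂ := fun j => {ζ | f ζ = 0 ∧ ‖ζ‖ ≤ 6 * 2 ^ j ∧ 2 ^ j ≤ ⌊ζ.re + 1 / 2⌋₊} with hZ
  set D : ℕ → Set (ℝ × ℝ) := fun j => ⋃ ζ ∈ Z j, rect ‖deriv f ζ‖ ζ.im ⌊ζ.re + 1 / 2⌋₊ with hD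
  have hZsub : ∀ j, Z j ⊆ {ζ | f ζ = 0 ∧ ‖ζ - z₀‖ ≤ 6 * 2 ^ j + ‖z₀‖} := by
    intro j ζ hζ
    refine ⟨hζ.1, (norm_sub_le _ _).trans ?_⟩
    have := hζ.2.1
    linarith
  have hRpos : ∀ j : ℕ, (0 : ℝ) < 6 * 2 ^ j + ‖z₀‖ := fun j => by positivity
  have hZfin : ∀ j, (Z j).Finite := fun j => ((zeros_finite hz₀ (hRpos j)).1).subset (hZsub j)
  have hZcard : ∀ j, ((Z j).ncard : ℝ) ≤ (κ ^ ((3 : ℝ) / 2) * ((2 : ℝ) ^ ((3 : ℝ) / 2)) ^ j + L) /
      Real.log 2 := by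
    intro j
    have h1 := (zeros_finite hz₀ (hRpos j)).2
    have h2 : ((Z j).ncard : ℝ) ≤ ({ζ : ℂ | f ζ = 0 ∧ ‖ζ - z₀‖ ≤ 6 * 2 ^ j + ‖z₀‖}.ncard : ℝ) := by
      exact_mod_cast Set.ncard_le_ncard (hZsub j) (zeros_finite hz₀ (hRpos j)).1
    refine h2.trans (h1.trans ?_)
    have hlog : 0 < Real.log 2 := Real.log_pos (by norm_num)
    apply div_le_div_of_nonneg_right _ hlog.le
    have h3 : 3 * (6 * 2 ^ j + ‖z₀‖) + ‖z₀‖ ≤ κ * 2 ^ j := by
      have h4 : (1 : ℝ) ≤ 2 ^ j := one_le_pow₀ (by norm_num)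
      have h5 := norm_nonneg z₀
      rw [hκ]
      nlinarith
    have h6 : (3 * (6 * 2 ^ j + ‖z₀‖) + ‖z₀‖) ^ ((3 : ℝ) / 2) ≤ (κ * 2 ^ j) ^ ((3 : ℝ) / 2) :=
      Real.rpow_le_rpow (by positivity) h3 (by norm_num)
    have h7 : (κ * 2 ^ j) ^ ((3 : ℝ) / 2) = κ ^ ((3 : ℝ) / 2) * ((2 : ℝ) ^ ((3 : ℝ) / 2)) ^ j := by
      rw [Real.mul_rpow (by positivity) (by positivity), ← Real.rpow_natCast, ← Real.rpow_mul
        (by norm_num), ← Real.rpow_natCast, ← Real.rpow_mul (by norm_num), mul_comm (j : ℝ)]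
    rw [← h7]
    linarith
  have hDvol : ∀ j, volume (D j) ≤ ENNReal.ofReal
      ((κ ^ ((3 : ℝ) / 2) * ((2 : ℝ) ^ ((3 : ℝ) / 2)) ^ j + L) / Real.log 2 * (2 / 4 ^ j)) := by
    intro j
    have h1 : volume (D j) ≤ ∑ ζ ∈ (hZfin j).toFinset,
        volume (rect ‖deriv f ζ‖ ζ.im ⌊ζ.re + 1 / 2⌋₊) := by
      have : D j = ⋃ ζ ∈ (hZfin j).toFinset, rect ‖deriv f ζ‖ ζ.im ⌊ζ.re + 1 / 2⌋₊ := by
        simp [hD]
      rw [this]
      exact measure_biUnion_finset_le _ _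
    refine h1.trans ?_
    have h2 : ∀ ζ ∈ (hZfin j).toFinset, volume (rect ‖deriv f ζ‖ ζ.im ⌊ζ.re + 1 / 2⌋₊) ≤
        ENNReal.ofReal (2 / 4 ^ j) := by
      intro ζ hζ
      have hζ' : ζ ∈ Z j := (hZfin j).mem_toFinset.1 hζ
      have h3 := hζ'.2.2
      have h4 : ((2 : ℝ) ^ j) ≤ (⌊ζ.re + 1 / 2⌋₊ : ℝ) := by exact_mod_cast h3
      have h5 : (0 : ℝ) < (⌊ζ.re + 1 / 2⌋₊ : ℝ) := lt_of_lt_of_le (by positivity) h4
      refine (rect_volume _ _ h5).trans (ENNReal.ofReal_le_ofReal ?_)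
      have h6 : (4 : ℝ) ^ j = (2 ^ j) ^ 2 := by
        rw [← pow_mul, mul_comm, pow_mul]
        norm_num
      rw [h6]
      gcongr
    refine (Finset.sum_le_sum h2).trans ?_
    rw [Finset.sum_const, nsmul_eq_mul, ← Set.ncard_eq_toFinset_card _ (hZfin j)]
    have h3 : ((Z j).ncard : ℝ≥0∞) = ENNReal.ofReal ((Z j).ncard : ℝ) := by
      rw [ENNReal.ofReal_natCast]
    rw [h3, ← ENNReal.ofReal_mul (by positivity)]
    apply ENNReal.ofReal_le_ofReal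
    have := hZcard j
    gcongr
  have hsum : ∑' j, volume (D j) ≠ ∞ := by
    refine ne_top_of_le_ne_top ?_ (ENNReal.tsum_le_tsum hDvol)
    apply Summable.tsum_ofReal_ne_top
    have hq : (2 : ℝ) ^ ((3 : ℝ) / 2) / 4 < 1 := by
      rw [div_lt_one (by norm_num)]
      have h4 : (4 : ℝ) = 2 ^ (2 : ℝ) := by norm_num
      rw [h4]
      exact Real.rpow_lt_rpow_of_exponent_lt (by norm_num) (by norm_num)
    have hs1 : Summable fun j : ℕ => ((2 : ℝ) ^ ((3 : ℝ) / 2) / 4) ^ j :=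
      summable_geometric_of_lt_one (by positivity) hq
    have hs2 : Summable fun j : ℕ => ((1 : ℝ) / 4) ^ j :=
      summable_geometric_of_lt_one (by norm_num) (by norm_num)
    have hs3 := (hs1.mul_left (κ ^ ((3 : ℝ) / 2) * 2 / Real.log 2)).add
      (hs2.mul_left (L * 2 / Real.log 2))
    refine hs3.congr fun j => ?_
    rw [div_pow, div_pow, one_pow]
    have hlog : Real.log 2 ≠ 0 := (Real.log_pos (by norm_num)).ne'
    field_simp
  have hz := measure_setOfPred_frequently_eq_zero (μ := (volume : Measure (ℝ × ℝ)))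
    (p := fun j x => x ∈ D j) hsum
  have hsub : Set.Icc (0 : ℝ) 1 ×ˢ Set.Icc (0 : ℝ) 1 ⊆ {x | ∃ᶠ j in atTop, x ∈ D j} := by
    rintro ⟨c, t⟩ ⟨hc, ht⟩
    change ∃ᶠ j in atTop, (c, t) ∈ D j
    rw [frequently_atTop]
    intro J
    have hzne : (1 + t * Complex.I : ℂ) ≠ 0 := by
      intro h0
      have := congrArg Complex.re h0
      simp at this
    obtain ⟨n, hn, hv⟩ := visits_frequently (h (Complex.exp c) (1 + t * Complex.I)
      (Complex.exp_ne_zero _) hzne) (2 ^ J)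
    have hn1 : 1 ≤ n := le_trans Nat.one_le_two_pow hn
    obtain ⟨ζ, h1, h2, h3, h4⟩ := visit_rect hn1 hv ht
    refine ⟨Nat.log 2 n, ?_, ?_⟩
    · exact (Nat.le_log_iff_pow_le (by norm_num) (by omega)).2 hn
    · refine Set.mem_iUnion₂.2 ⟨ζ, ⟨h1, ?_, ?_⟩, ?_⟩
      · have h5 : n < 2 ^ (Nat.log 2 n + 1) := Nat.lt_pow_succ_log_self (by norm_num) n
        have h6 : (n : ℝ) ≤ 2 ^ (Nat.log 2 n + 1) := by exact_mod_cast h5.le
        rw [pow_succ] at h6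
        linarith
      · rw [h3]
        exact Nat.pow_log_le_self 2 (by omega)
      · rw [h3]
        exact h4
  have h1 := (measure_mono hsub).trans_eq hz
  rw [Measure.volume_eq_prod, Measure.prod_prod, Real.volume_Icc] at h1
  simp at h1

end Pool.Agent.X187.HG
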