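import Pool.Agent.X187.HG.Space

open Filter Topology
open scoped ENNReal

namespace Pool.Agent.X187.HG

lemma summ_shift (F : X) (z : ℂ) (k : ℕ) {l : ℕ} (hl : (k : ℝ) + ‖z‖ ≤ l) :
    (Summable fun N => ‖coef F N‖ * ((((k : ℝ) + 1) + ‖z‖) ^ N * sg N)) ∧
    ∑' N, ‖coef F N‖ * ((((k : ℝ) + 1) + ‖z‖) ^ N * sg N) ≤ sem l F := by
  have h1 := coef_summable F l
  have hle : ∀ N, ‖coef F N‖ * ((((k : ℝ) + 1) + ‖z‖) ^ N * sg N) ≤ ‖coef F N‖ * W l N := by
    intro N
    unfold W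
    have := (sg_pos N).le
    have h2 : ((k : ℝ) + 1) + ‖z‖ ≤ (l : ℝ) + 1 := by linarith
    have h3 : 0 ≤ ((k : ℝ) + 1) + ‖z‖ := by positivity
    gcongr
  have hs : Summable fun N => ‖coef F N‖ * ((((k : ℝ) + 1) + ‖z‖) ^ N * sg N) :=
    Summable.of_nonneg_of_le (fun N => by have := (sg_pos N).le; positivity) hle h1
  refine ⟨hs, ?_⟩
  rw [sem_eq]
  exact hs.tsum_le_tsum hle h1

lemma ceil_le (k : ℕ) (z : ℂ) : (k : ℝ) + ‖z‖ ≤ ((k + ⌈‖z‖⌉₊ : ℕ) : ℝ) := by
  push_cast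
  have := Nat.le_ceil ‖z‖
  linarith

lemma kpos (k : ℕ) : (0 : ℝ) < (k : ℝ) + 1 := by positivity

/-- translation -/
noncomputable def Tz (z : ℂ) (F : X) : X :=
  mk (tr z (coef F)) (fun k => (tr_bound (kpos k) (summ_shift F z k (ceil_le k z)).1).1)

lemma coef_Tz (z : ℂ) (F : X) : coef (Tz z F) = tr z (coef F) := coef_mk _ _

lemma sem_Tz (z : ℂ) (F : X) (k : ℕ) {l : ℕ} (hl : (k : ℝ) + ‖z‖ ≤ l) :
    sem k (Tz z F) ≤ sem l F := by
  rw [sem_eq, coef_Tz]
  exact (tr_bound (kpos k) (summ_shift F z k hl).1).2.trans (summ_shift F z k hl).2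

lemma summ_inner (F : X) (z : ℂ) (n : ℕ) :
    Summable fun m => ‖((n + m).choose n : ℂ) * z ^ m * coef F (n + m)‖ :=
  tr_summable_inner (kpos 0) (summ_shift F z 0 (ceil_le 0 z)).1 n

/-- translation as a continuous linear operator -/
noncomputable def T (z : ℂ) : X →L[ℂ] X where
  toFun := Tz z
  map_add' := by
    intro F G
    apply coef_inj
    rw [coef_add, coef_Tz, coef_Tz, coef_Tz, coef_add]
    funext n
    simp only [tr, Pi.add_apply, mul_add]
    exact (summ_inner F z n).of_norm.tsum_add (summ_inner G z n).of_norm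
  map_smul' := by
    intro a F
    apply coef_inj
    rw [RingHom.id_apply, coef_smul, coef_Tz, coef_Tz, coef_smul]
    funext n
    simp only [tr, Pi.smul_apply, smul_eq_mul]
    rw [← tsum_mul_left]
    congr 1
    funext m
    ring
  cont := by
    rw [continuous_iff_continuousAt]
    intro G
    rw [ContinuousAt, tendsto_iff]
    intro k
    have h1 : Tendsto (fun F : X => F) (𝓝 G) (𝓝 G) := tendsto_id
    have h2 := tendsto_iff.1 h1 (k + ⌈‖z‖⌉₊)
    refine squeeze_zero (fun F => apply_nonneg _ _) (fun F => ?_) h2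
    have h3 : Tz z F - Tz z G = Tz z (F - G) := by
      apply coef_inj
      rw [coef_sub, coef_Tz, coef_Tz, coef_Tz, coef_sub]
      funext n
      simp only [tr, Pi.sub_apply, mul_sub]
      exact ((summ_inner F z n).of_norm.tsum_sub (summ_inner G z n).of_norm).symm
    change sem k (Tz z F - Tz z G) ≤ _
    rw [h3]
    exact sem_Tz z (F - G) k (ceil_le k z)

lemma T_apply (z : ℂ) (F : X) : T z F = Tz z F := rfl

lemma ev_T (z w : ℂ) (F : X) : ev (coef (T z F)) w = ev (coef F) (z + w) := by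
  rw [T_apply, coef_Tz, ev_tr (coef_ent F)]

lemma T_zero : T 0 = ContinuousLinearMap.id ℂ X := by
  ext1 F
  apply ev_inj
  intro w
  rw [ev_T, zero_add]
  rfl

lemma T_add (z w : ℂ) : T (z + w) = (T z).comp (T w) := by
  ext1 F
  apply ev_inj
  intro u
  rw [ContinuousLinearMap.comp_apply, ev_T, ev_T, ev_T]
  congr 1
  ring

lemma key_one (F : X) (k : ℕ) :
    Summable (fun p : ℕ × ℕ => ((k : ℝ) + 1) ^ p.1 * sg p.1 * (((p.1 + p.2).choose p.1 : ℝ) *
      ‖coef F (p.1 + p.2)‖)) ∧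
    ∑' p : ℕ × ℕ, ((k : ℝ) + 1) ^ p.1 * sg p.1 * (((p.1 + p.2).choose p.1 : ℝ) *
      ‖coef F (p.1 + p.2)‖) ≤ sem (k + 1) F := by
  have h := summ_shift F 1 k (l := k + 1) (by push_cast; simp)
  have h1 := key_summable (kpos k).le h.1
  simp only [norm_one, one_pow, mul_one] at h1 h
  exact ⟨h1.1, h1.2.trans h.2⟩

/-- derivative -/
noncomputable def D (F : X) : X :=
  mk (fun n => ((n + 1).choose n : ℂ) * coef F (n + 1)) (fun k => by
    have h1 := (key_one F k).1
    have h2 : Function.Injective fun n : ℕ => (n, 1) := fun a b h => by simpa using h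
    refine (h1.comp_injective h2).congr fun n => ?_
    simp only [Function.comp_apply, W]
    rw [norm_mul, Complex.norm_natCast]
    ring)

lemma coef_D (F : X) (n : ℕ) : coef (D F) n = ((n + 1).choose n : ℂ) * coef F (n + 1) := by
  unfold D
  rw [coef_mk]

lemma series_est {a : ℕ → ℂ} (ha : Summable fun m => ‖a m‖) {h : ℂ} (h0 : h ≠ 0) (h1 : ‖h‖ ≤ 1) :
    ‖h⁻¹ * ((∑' m, a m * h ^ m) - a 0) - a 1‖ ≤ ‖h‖ * ∑' m, ‖a m‖ := by
  have hs : Summable fun m => a m * h ^ m := by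
    apply Summable.of_norm
    refine Summable.of_nonneg_of_le (fun m => norm_nonneg _) (fun m => ?_) ha
    rw [norm_mul, norm_pow]
    calc ‖a m‖ * ‖h‖ ^ m ≤ ‖a m‖ * 1 := by
          gcongr
          exact pow_le_one₀ (norm_nonneg _) h1
      _ = _ := mul_one _
  have h2 := hs.sum_add_tsum_nat_add 2
  have h3 : h⁻¹ * ((∑' m, a m * h ^ m) - a 0) - a 1 = ∑' m, a (m + 2) * h ^ (m + 1) := by
    rw [← h2, Finset.sum_range_succ, Finset.sum_range_one]
    have h4 : (∑' m, a (m + 2) * h ^ (m + 2)) = h * ∑' m, a (m + 2) * h ^ (m + 1) := by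
      rw [← tsum_mul_left]
      congr 1
      funext m
      ring
    rw [h4]
    field_simp
    ring
  rw [h3]
  have hs2 : Summable fun m => ‖a (m + 2)‖ := (summable_nat_add_iff 2).2 ha
  have hle : ∀ m, ‖a (m + 2) * h ^ (m + 1)‖ ≤ ‖h‖ * ‖a (m + 2)‖ := by
    intro m
    rw [norm_mul, norm_pow, pow_succ]
    calc ‖a (m + 2)‖ * (‖h‖ ^ m * ‖h‖) ≤ ‖a (m + 2)‖ * (1 * ‖h‖) := by
          gcongr
          exact pow_le_one₀ (norm_nonneg _) h1
      _ = _ := by ring
  have hs3 : Summable fun m => ‖a (m + 2) * h ^ (m + 1)‖ :=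
    Summable.of_nonneg_of_le (fun m => norm_nonneg _) hle (hs2.mul_left _)
  refine (norm_tsum_le_tsum_norm hs3).trans ((hs3.tsum_le_tsum hle (hs2.mul_left _)).trans ?_)
  rw [tsum_mul_left]
  have h5 := ha.sum_add_tsum_nat_add 2
  have h6 : 0 ≤ ∑ i ∈ Finset.range 2, ‖a i‖ := Finset.sum_nonneg fun i _ => norm_nonneg _
  have h7 : ∑' (i : ℕ), ‖a (i + 2)‖ ≤ ∑' (i : ℕ), ‖a i‖ := by linarith
  exact mul_le_mul_of_nonneg_left h7 (norm_nonneg _)

lemma deriv_est (F : X) (k : ℕ) {h : ℂ} (h0 : h ≠ 0) (h1 : ‖h‖ ≤ 1) :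
    sem k (h⁻¹ • (T h F - F) - D F) ≤ ‖h‖ * sem (k + 1) F := by
  have hk := key_one F k
  rw [sem_eq]
  have hpt : ∀ n, ‖coef (h⁻¹ • (T h F - F) - D F) n‖ ≤
      ‖h‖ * ∑' m, ((n + m).choose n : ℝ) * ‖coef F (n + m)‖ := by
    intro n
    have ha : Summable fun m => ‖((n + m).choose n : ℂ) * coef F (n + m)‖ := by
      have := summ_inner F 1 n
      simpa using this
    have h2 := series_est ha h0 h1
    have h3 : coef (h⁻¹ • (T h F - F) - D F) n =
        h⁻¹ * ((∑' m, ((n + m).choose n : ℂ) * coef F (n + m) * h ^ m) -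
          ((n + 0).choose n : ℂ) * coef F (n + 0)) - ((n + 1).choose n : ℂ) * coef F (n + 1) := by
      rw [coef_sub, coef_smul, coef_sub, T_apply, coef_Tz]
      simp only [Pi.sub_apply, Pi.smul_apply, smul_eq_mul, coef_D, tr, add_zero, Nat.choose_self,
        Nat.cast_one, one_mul]
      congr 3
      congr 1
      funext m
      ring
    rw [h3]
    refine h2.trans (le_of_eq ?_)
    congr 2
    funext m
    rw [norm_mul, Complex.norm_natCast]
  have hs : Summable fun n => ‖h‖ * ∑' m, ((k : ℝ) + 1) ^ n * sg n * (((n + m).choose n : ℝ) *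
      ‖coef F (n + m)‖) := (hk.1.prod).mul_left _
  have hle : ∀ n, ‖coef (h⁻¹ • (T h F - F) - D F) n‖ * W k n ≤
      ‖h‖ * ∑' m, ((k : ℝ) + 1) ^ n * sg n * (((n + m).choose n : ℝ) * ‖coef F (n + m)‖) := by
    intro n
    rw [tsum_mul_left]
    have := hpt n
    have hW := (W_pos k n).le
    calc ‖coef (h⁻¹ • (T h F - F) - D F) n‖ * W k n
        ≤ (‖h‖ * ∑' m, ((n + m).choose n : ℝ) * ‖coef F (n + m)‖) * W k n := by gcongr
      _ = _ := by unfold W; ring
  refine ((coef_summable _ k).tsum_le_tsum hle hs).trans ?_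
  rw [tsum_mul_left, ← hk.1.tsum_prod]
  gcongr
  exact hk.2

/-- `z ↦ T z F` is complex differentiable. -/
lemma holo (F : X) (z : ℂ) :
    Tendsto (fun h : ℂ => h⁻¹ • (T (z + h) F - T z F)) (𝓝[≠] 0) (𝓝 (T z (D F))) := by
  have h0 : Tendsto (fun h : ℂ => h⁻¹ • (T h F - F)) (𝓝[≠] 0) (𝓝 (D F)) := by
    rw [tendsto_iff]
    intro k
    have h1 : Tendsto (fun h : ℂ => ‖h‖ * sem (k + 1) F) (𝓝[≠] 0) (𝓝 0) := by
      have : Tendsto (fun h : ℂ => ‖h‖ * sem (k + 1) F) (𝓝 0) (𝓝 (‖(0:ℂ)‖ * sem (k + 1) F)) := by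
        exact (continuous_norm.mul continuous_const).tendsto 0
      rw [norm_zero, zero_mul] at this
      exact this.mono_left nhdsWithin_le_nhds
    refine squeeze_zero' (Eventually.of_forall fun h => apply_nonneg _ _) ?_ h1
    have h2 : ∀ᶠ h : ℂ in 𝓝[≠] 0, ‖h‖ ≤ 1 := by
      apply Filter.Eventually.filter_mono nhdsWithin_le_nhds
      filter_upwards [Metric.closedBall_mem_nhds (0 : ℂ) one_pos] with h hh
      simpa using hh
    filter_upwards [h2, self_mem_nhdsWithin] with h hh hne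
    exact deriv_est F k hne hh
  have h1 := ((T z).continuous.tendsto (D F)).comp h0
  refine h1.congr fun h => ?_
  simp only [Function.comp_apply]
  rw [map_smul, map_sub, T_add]
  rfl

end Pool.Agent.X187.HG
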