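import Pool.Agent.X187.HG.Grp

open Filter Topology
open scoped ENNReal

namespace Pool.Agent.X187.HG

/-- Birkhoff's transitivity theorem. -/
lemma exists_dense_orbit {Y : Type*} [TopologicalSpace Y] [BaireSpace Y] [SecondCountableTopology Y]
    [Nonempty Y] (S : Y → Y) (hS : Continuous S)
    (ht : ∀ U V : Set Y, IsOpen U → IsOpen V → U.Nonempty → V.Nonempty →
      ∃ n : ℕ, ∃ x ∈ U, S^[n] x ∈ V) : ∃ x, Dense (Set.range fun n : ℕ => S^[n] x) := by
  set B := TopologicalSpace.countableBasis Y with hB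
  have hBc := TopologicalSpace.countable_countableBasis Y
  have hd : Dense (⋂ V ∈ B, ⋃ n : ℕ, S^[n] ⁻¹' V) := by
    apply dense_biInter_of_isOpen _ hBc
    · intro V hV
      rw [dense_iff_inter_open]
      intro U hU hUn
      obtain ⟨n, x, hx, hxV⟩ := ht U V hU (TopologicalSpace.isOpen_of_mem_countableBasis hV) hUn
        (TopologicalSpace.nonempty_of_mem_countableBasis hV)
      exact ⟨x, hx, Set.mem_iUnion.2 ⟨n, hxV⟩⟩
    · intro V hV
      exact isOpen_iUnion fun n =>
        (TopologicalSpace.isOpen_of_mem_countableBasis hV).preimage (hS.iterate n)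
  obtain ⟨x, hx⟩ := hd.nonempty
  refine ⟨x, ?_⟩
  rw [dense_iff_inter_open]
  intro U hU ⟨y, hy⟩
  obtain ⟨V, hV, hyV, hVU⟩ := (TopologicalSpace.isBasis_countableBasis Y).exists_subset_of_mem_open
    hy hU
  have h1 := Set.mem_iInter₂.1 hx V hV
  obtain ⟨n, hn⟩ := Set.mem_iUnion.1 h1
  exact ⟨S^[n] x, hVU hn, ⟨n, rfl⟩⟩

/-- unit vectors -/
noncomputable def un (j : ℕ) : X := mk (Pi.single j 1) (fun k => by
  apply summable_of_ne_finset_zero (s := {j})
  intro n hn
  rw [Finset.mem_singleton] at hn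
  rw [Pi.single_eq_of_ne hn]
  simp)

lemma coef_un (j : ℕ) : coef (un j) = Pi.single j 1 := coef_mk _ _

lemma coef_sum {ι : Type*} (s : Finset ι) (f : ι → X) : coef (∑ i ∈ s, f i) = ∑ i ∈ s, coef (f i) := by
  classical
  induction s using Finset.induction_on with
  | empty =>
    funext n
    simp [coef]
  | insert a s ha ih => rw [Finset.sum_insert ha, Finset.sum_insert ha, coef_add, ih]

lemma hasSum_un (F : X) : HasSum (fun n => coef F n • un n) F := by
  classical
  unfold HasSum
  rw [SummationFilter.unconditional_filter]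
  rw [tendsto_iff]
  intro k
  have h1 := coef_summable F k
  have h2 := tendsto_tsum_compl_atTop_zero fun n => ‖coef F n‖ * W k n
  refine h2.congr fun s => ?_
  rw [sem_eq]
  have hc : ∀ n, coef ((∑ i ∈ s, coef F i • un i) - F) n = if n ∈ s then 0 else - coef F n := by
    intro n
    rw [coef_sub, coef_sum, Pi.sub_apply, Finset.sum_apply]
    simp only [coef_smul, coef_un, Pi.smul_apply, smul_eq_mul, Pi.single_apply, mul_ite, mul_one,
      mul_zero]
    rw [Finset.sum_ite_eq]
    split_ifs <;> simp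
  rw [← (coef_summable ((∑ i ∈ s, coef F i • un i) - F) k).tsum_subtype_add_tsum_subtype_compl
    (s : Set ℕ)]
  · have h3 : ∑' (x : ((s : Set ℕ))), ‖coef ((∑ i ∈ s, coef F i • un i) - F) ↑x‖ * W k ↑x = 0 := by
      rw [← tsum_zero (α := ℝ) (β := ((s : Set ℕ)))]
      congr 1
      funext x
      rw [hc, if_pos (show (x : ℕ) ∈ s from x.2)]
      simp
    rw [h3, zero_add]
    have h4 : (fun x : (((s : Set ℕ))ᶜ : Set ℕ) => ‖coef ((∑ i ∈ s, coef F i • un i) - F) ↑x‖ * W k ↑x) =
        fun x : (((s : Set ℕ))ᶜ : Set ℕ) => ‖coef F ↑x‖ * W k ↑x := by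
      funext x
      have : (x : ℕ) ∉ s := x.2
      rw [hc, if_neg this, norm_neg]
    rw [h4]
    rfl

instance : TopologicalSpace.SeparableSpace X := by
  have h1 : TopologicalSpace.IsSeparable (Set.range un) := (Set.countable_range un).isSeparable
  have h2 := h1.span (R := ℂ)
  have h3 := h2.closure
  have h4 : closure (Submodule.span ℂ (Set.range un) : Set X) = Set.univ := by
    rw [Set.eq_univ_iff_forall]
    intro F
    have h5 := hasSum_un F
    unfold HasSum at h5
    rw [SummationFilter.unconditional_filter] at h5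
    refine mem_closure_of_tendsto h5 (Eventually.of_forall fun s => ?_)
    exact Submodule.sum_mem _ fun n _ => Submodule.smul_mem _ _ (Submodule.subset_span ⟨n, rfl⟩)
  rw [h4] at h3
  exact TopologicalSpace.isSeparable_univ_iff.1 h3

instance : SecondCountableTopology X := UniformSpace.secondCountable_of_separable X

instance : BaireSpace X := inferInstance

lemma summ_exp (x : ℝ) (hx : 0 ≤ x) : Summable fun n : ℕ => x ^ n / n.factorial * sg n := by
  have h1 : ∀ n : ℕ, x ^ n / n.factorial * sg n ≤ Real.exp ((2 * x) ^ 3) * (1 / 2) ^ n := by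
    intro n
    have h2 : ((2 * x) ^ 3) ^ n / n.factorial ≤ Real.exp ((2 * x) ^ 3) :=
      Real.pow_div_factorial_le_exp _ (by positivity) n
    have hf : (0 : ℝ) < n.factorial := by exact_mod_cast n.factorial_pos
    have h3 : (((2 * x) ^ 3) ^ n / n.factorial) ^ ((1 : ℝ) / 3) = 2 ^ n * (x ^ n / n.factorial * sg n) := by
      rw [Real.div_rpow (by positivity) hf.le]
      have h4 : (((2 * x) ^ 3) ^ n) ^ ((1 : ℝ) / 3) = 2 ^ n * x ^ n := by
        rw [← pow_mul, mul_comm 3 n, pow_mul, ← Real.rpow_natCast _ 3, ← Real.rpow_mul (by positivity)]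
        norm_num
        rw [mul_pow]
      have h5 : (n.factorial : ℝ) = (n.factorial : ℝ) ^ ((1 : ℝ) / 3) * sg n := by
        unfold sg
        rw [← Real.rpow_add hf]
        norm_num
      rw [h4]
      have h6 : (n.factorial : ℝ) ^ ((1 : ℝ) / 3) ≠ 0 := (Real.rpow_pos_of_pos hf _).ne'
      have h7 := (sg_pos n).ne'
      rw [div_mul_eq_mul_div, mul_div_assoc']
      rw [div_eq_div_iff h6 hf.ne']
      nth_rewrite 1 [h5]
      ring
    have h4 : (((2 * x) ^ 3) ^ n / n.factorial) ^ ((1 : ℝ) / 3) ≤ Real.exp ((2 * x) ^ 3) := by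
      refine (Real.rpow_le_rpow (by positivity) h2 (by norm_num)).trans ?_
      rw [← Real.exp_mul]
      apply Real.exp_le_exp.2
      have : 0 ≤ (2 * x) ^ 3 := by positivity
      linarith
    rw [h3] at h4
    have h5 : x ^ n / n.factorial * sg n = (1 / 2) ^ n * (2 ^ n * (x ^ n / n.factorial * sg n)) := by
      rw [← mul_assoc, ← mul_pow]
      norm_num
    rw [h5, mul_comm (Real.exp _)]
    gcongr
  refine Summable.of_nonneg_of_le (fun n => by have := (sg_pos n).le; positivity) h1 ?_
  exact (summable_geometric_two).mul_left _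

/-- the exponentials -/
noncomputable def ex (l : ℂ) : X := mk (fun n => l ^ n / n.factorial) (fun k => by
  refine (summ_exp (‖l‖ * (k + 1)) (by positivity)).congr fun n => ?_
  unfold W
  rw [norm_div, norm_pow, Complex.norm_natCast, mul_pow]
  ring)

lemma coef_ex (l : ℂ) (n : ℕ) : coef (ex l) n = l ^ n / n.factorial := by
  unfold ex
  rw [coef_mk]

lemma ev_ex (l w : ℂ) : ev (coef (ex l)) w = Complex.exp (l * w) := by
  unfold ev
  rw [Complex.exp_eq_exp_ℂ, NormedSpace.exp_eq_tsum_div]
  congr 1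
  funext n
  rw [coef_ex, mul_pow]
  ring

lemma T_ex (z l : ℂ) : T z (ex l) = Complex.exp (l * z) • ex l := by
  apply ev_inj
  intro w
  rw [ev_T, ev_ex, coef_smul]
  have : ev (Complex.exp (l * z) • coef (ex l)) w = Complex.exp (l * z) * ev (coef (ex l)) w := by
    unfold ev
    rw [← tsum_mul_left]
    congr 1
    funext n
    simp only [Pi.smul_apply, smul_eq_mul]
    ring
  rw [this, ev_ex, mul_add, Complex.exp_add]

instance : LocallyConvexSpace ℝ X := withSeminorms.toLocallyConvexSpace

instance : ContinuousSMul ℝ X := IsScalarTower.continuousSMul ℂ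

lemma dense_span {Λ : Set ℂ} (hΛ : IsOpen Λ) (hne : Λ.Nonempty) :
    Dense (Submodule.span ℂ (ex '' Λ) : Set X) := by
  set M : Submodule ℂ X := Submodule.span ℂ (ex '' Λ) with hM
  by_contra hnd
  have : ∃ x, x ∉ closure (M : Set X) := by
    by_contra h
    push Not at h
    exact hnd h
  obtain ⟨x, hx⟩ := this
  have hconv : Convex ℝ (closure (M : Set X)) := by
    apply Convex.closure
    exact (M.restrictScalars ℝ).convex
  obtain ⟨f, u, h1, h2⟩ := RCLike.geometric_hahn_banach_closed_point (𝕜 := ℂ) hconv isClosed_closure hx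
  have h0 : ∀ a ∈ M, f a = 0 := by
    intro a ha
    by_contra hfa
    have h3 := h1 ((((u + 1 : ℝ) : ℂ) * (f a)⁻¹) • a) (subset_closure (by
      exact M.smul_mem _ ha))
    rw [map_smul, smul_eq_mul, mul_assoc, inv_mul_cancel₀ hfa, mul_one] at h3
    simp at h3
    linarith
  have hser : ∀ F : X, HasSum (fun n => coef F n * f (un n)) (f F) := by
    intro F
    have := (hasSum_un F).mapL f
    simpa using this
  set c : ℕ → ℂ := fun n => f (un n) / n.factorial with hc
  have hcE : Ent c := by
    intro r hr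
    have h3 := (hser (ex (r : ℂ))).summable.norm
    refine h3.congr fun n => ?_
    rw [coef_ex, hc]
    simp only [norm_mul, norm_div, norm_pow, Complex.norm_real, Complex.norm_natCast,
      Real.norm_of_nonneg hr]
    ring
  have hev : ∀ l, ev c l = f (ex l) := by
    intro l
    rw [← (hser (ex l)).tsum_eq]
    unfold ev
    congr 1
    funext n
    rw [coef_ex, hc]
    ring
  obtain ⟨l₀, hl₀⟩ := hne
  have hc0 : c = 0 := by
    apply hcE.eq_zero (z₀ := l₀)
    filter_upwards [hΛ.mem_nhds hl₀] with l hl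
    rw [hev]
    exact h0 _ (Submodule.subset_span ⟨l, hl, rfl⟩)
  have hfx : f x = 0 := by
    rw [← (hser x).tsum_eq]
    have : ∀ n, coef x n * f (un n) = 0 := by
      intro n
      have h4 := congrFun hc0 n
      rw [hc] at h4
      simp only [Pi.zero_apply, div_eq_zero_iff] at h4
      rcases h4 with h4 | h4
      · rw [h4, mul_zero]
      · exact absurd h4 (by exact_mod_cast n.factorial_ne_zero)
    simp_rw [this]
    exact tsum_zero
  have h5 := h1 0 (subset_closure M.zero_mem)
  rw [hfx] at h2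
  rw [map_zero] at h5
  simp at h2 h5
  linarith

/-- `a T_z` is hypercyclic. -/
theorem hypercyclic {a z : ℂ} (ha : a ≠ 0) (hz : z ≠ 0) :
    ∃ F : X, Dense (Set.range fun n : ℕ => (fun G => a • T z G)^[n] F) := by
  set S : X → X := fun G => a • T z G with hSdef
  have hS : Continuous S := by fun_prop
  apply exists_dense_orbit S hS
  intro U V hU hV hUn hVn
  have ha' : 0 < ‖a‖ := norm_pos_iff.2 ha
  set μ : ℂ → ℂ := fun l => a * Complex.exp (l * z) with hμ
  have hμc : Continuous fun l => ‖μ l‖ := by fun_prop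
  have hval : ∀ s : ℝ, ‖μ ((s : ℂ) / z)‖ = ‖a‖ * Real.exp s := by
    intro s
    simp only [hμ]
    rw [norm_mul, div_mul_cancel₀ _ hz, Complex.norm_exp, Complex.ofReal_re]
  have hSe : ∀ l (n : ℕ), S^[n] (ex l) = μ l ^ n • ex l := by
    intro l n
    induction n with
    | zero => simp
    | succ n ih =>
      rw [Function.iterate_succ_apply', ih]
      simp only [hSdef]
      rw [map_smul, T_ex, smul_smul, smul_smul, hμ]
      congr 1
      ring
  have hSlin : ∀ (n : ℕ) (G H : X), S^[n] (G + H) = S^[n] G + S^[n] H := by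
    intro n G H
    induction n with
    | zero => rfl
    | succ n ih =>
      rw [Function.iterate_succ_apply', Function.iterate_succ_apply', Function.iterate_succ_apply',
        ih]
      simp only [hSdef, map_add, smul_add]
  have hSsmul : ∀ (n : ℕ) (b : ℂ) (G : X), S^[n] (b • G) = b • S^[n] G := by
    intro n b G
    induction n with
    | zero => rfl
    | succ n ih =>
      rw [Function.iterate_succ_apply', Function.iterate_succ_apply', ih]
      simp only [hSdef, map_smul]
      rw [smul_comm]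
  have hS0 : ∀ n : ℕ, S^[n] 0 = 0 := by
    intro n
    have := hSsmul n 0 0
    rwa [zero_smul, zero_smul] at this
  have hd1 := dense_span (Λ := {l | ‖μ l‖ < 1}) (isOpen_lt hμc continuous_const)
    ⟨((-Real.log ‖a‖ - 1 : ℝ) : ℂ) / z, by
      rw [Set.mem_ofPred_eq, hval, Real.exp_sub, Real.exp_neg, Real.exp_log ha', mul_div_assoc',
        mul_inv_cancel₀ ha'.ne']
      rw [div_lt_one (Real.exp_pos _)]
      exact Real.one_lt_exp_iff.2 one_pos⟩
  have hd2 := dense_span (Λ := {l | 1 < ‖μ l‖}) (isOpen_lt continuous_const hμc)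
    ⟨((-Real.log ‖a‖ + 1 : ℝ) : ℂ) / z, by
      rw [Set.mem_ofPred_eq, hval, Real.exp_add, Real.exp_neg, Real.exp_log ha', ← mul_assoc,
        mul_inv_cancel₀ ha'.ne', one_mul]
      exact Real.one_lt_exp_iff.2 one_pos⟩
  obtain ⟨x, hxU, hx⟩ := hd1.inter_open_nonempty U hU hUn
  obtain ⟨y, hyV, hy⟩ := hd2.inter_open_nonempty V hV hVn
  have hx0 : Tendsto (fun n : ℕ => S^[n] x) atTop (𝓝 0) := by
    refine Submodule.span_induction (p := fun x _ => Tendsto (fun n : ℕ => S^[n] x) atTop (𝓝 0))
      ?_ ?_ ?_ ?_ hx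
    · rintro _ ⟨l, hl, rfl⟩
      simp_rw [hSe]
      have := (tendsto_pow_atTop_nhds_zero_of_norm_lt_one hl).smul_const (ex l)
      simpa using this
    · simp_rw [hS0]
      exact tendsto_const_nhds
    · intro G H _ _ hG hH
      simp_rw [hSlin]
      simpa using hG.add hH
    · intro b G _ hG
      simp_rw [hSsmul]
      simpa using hG.const_smul b
  have hy0 : ∃ u : ℕ → X, Tendsto u atTop (𝓝 0) ∧ ∀ n, S^[n] (u n) = y := by
    refine Submodule.span_induction (p := fun y _ => ∃ u : ℕ → X, Tendsto u atTop (𝓝 0) ∧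
      ∀ n, S^[n] (u n) = y) ?_ ?_ ?_ ?_ hy
    · rintro _ ⟨l, hl, rfl⟩
      have hl : 1 < ‖μ l‖ := hl
      have hne : μ l ≠ 0 := by
        intro h
        rw [h, norm_zero] at hl
        linarith
      refine ⟨fun n => (μ l)⁻¹ ^ n • ex l, ?_, ?_⟩
      · have h3 : ‖(μ l)⁻¹‖ < 1 := by
          rw [norm_inv]
          exact inv_lt_one_of_one_lt₀ hl
        have := (tendsto_pow_atTop_nhds_zero_of_norm_lt_one h3).smul_const (ex l)
        simpa using this
      · intro n
        rw [hSsmul, hSe, smul_smul, ← mul_pow, inv_mul_cancel₀ hne, one_pow, one_smul]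
    · exact ⟨fun _ => 0, tendsto_const_nhds, hS0⟩
    · rintro G H _ _ ⟨u, hu, hu2⟩ ⟨v, hv, hv2⟩
      refine ⟨fun n => u n + v n, by simpa using hu.add hv, fun n => ?_⟩
      rw [hSlin, hu2, hv2]
    · rintro b G _ ⟨u, hu, hu2⟩
      refine ⟨fun n => b • u n, by simpa using hu.const_smul b, fun n => ?_⟩
      rw [hSsmul, hu2]
  obtain ⟨u, hu, hu2⟩ := hy0
  have h1 : Tendsto (fun n => x + u n) atTop (𝓝 x) := by simpa using hu.const_add x
  have h2 : Tendsto (fun n => S^[n] (x + u n)) atTop (𝓝 y) := by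
    have : ∀ n, S^[n] (x + u n) = S^[n] x + y := fun n => by rw [hSlin, hu2]
    simp_rw [this]
    simpa using hx0.add_const y
  obtain ⟨n, hn1, hn2⟩ := ((h1.eventually (hU.mem_nhds hxU)).and
    (h2.eventually (hV.mem_nhds hyV))).exists
  exact ⟨n, x + u n, hn1, hn2⟩

end Pool.Agent.X187.HG
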