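import Pool.Agent.X187.HG.HC

open Filter Topology MeasureTheory
open scoped ENNReal

namespace Pool.Agent.X187.HG

lemma iter_formula (a z : ℂ) (F : X) (n : ℕ) :
    (fun G => a • T z G)^[n] F = a ^ n • T (n * z) F := by
  induction n with
  | zero =>
    simp [T_zero]
  | succ n ih =>
    rw [Function.iterate_succ_apply', ih, map_smul, smul_smul]
    have h1 : T (((n + 1 : ℕ) : ℂ) * z) = (T z).comp (T (n * z)) := by
      rw [← T_add]
      congr 1
      push_cast
      ring
    rw [h1]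
    congr 1
    ring

/-- the target set -/
def U0 : Set X := {G | sem 2 (G - un 1) < 1 / 10}

lemma isOpen_U0 : IsOpen U0 := by
  apply isOpen_lt _ continuous_const
  exact (continuous_sem 2).comp (continuous_id.sub continuous_const)

lemma U0_nonempty : U0.Nonempty := ⟨un 1, by
  change sem 2 (un 1 - un 1) < 1 / 10
  rw [sub_self, map_zero]
  norm_num⟩

lemma ev_un_one (w : ℂ) : ev (coef (un 1)) w = w := by
  unfold ev
  rw [coef_un, tsum_eq_single 1]
  · simp
  · intro n hn
    rw [Pi.single_eq_of_ne hn, zero_mul]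

lemma ev_sub (F G : X) (w : ℂ) : ev (coef (F - G)) w = ev (coef F) w - ev (coef G) w := by
  unfold ev
  rw [coef_sub]
  simp only [Pi.sub_apply, sub_mul]
  exact ((coef_ent F).summable w).tsum_sub ((coef_ent G).summable w)

lemma ev_smul (a : ℂ) (G : X) (w : ℂ) : ev (coef (a • G)) w = a * ev (coef G) w := by
  unfold ev
  rw [coef_smul, ← tsum_mul_left]
  congr 1
  funext n
  simp only [Pi.smul_apply, smul_eq_mul]
  ring

lemma U0_close {G : X} (hG : G ∈ U0) {w : ℂ} (hw : ‖w‖ ≤ 3) : ‖ev (coef G) w - w‖ < 1 / 10 := by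
  have h1 : ev (coef G) w - w = ev (coef (G - un 1)) w := by rw [ev_sub, ev_un_one]
  rw [h1]
  refine lt_of_le_of_lt ?_ hG
  rw [sem_eq]
  have hle : ∀ n, ‖coef (G - un 1) n * w ^ n‖ ≤ ‖coef (G - un 1) n‖ * W 2 n := by
    intro n
    rw [norm_mul, norm_pow]
    unfold W
    have h2 := one_le_sg n
    calc ‖coef (G - un 1) n‖ * ‖w‖ ^ n ≤ ‖coef (G - un 1) n‖ * (((2 : ℕ) : ℝ) + 1) ^ n := by
          gcongr
          push_cast
          linarith
      _ = ‖coef (G - un 1) n‖ * ((((2 : ℕ) : ℝ) + 1) ^ n * 1) := by ring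
      _ ≤ _ := by gcongr
  have hs := coef_summable (G - un 1) 2
  have hs1 : Summable fun n => ‖coef (G - un 1) n * w ^ n‖ :=
    Summable.of_nonneg_of_le (fun n => norm_nonneg _) hle hs
  exact (norm_tsum_le_tsum_norm hs1).trans (hs1.tsum_le_tsum hle hs)

/-- an entire function close to the identity has a zero near `0` with derivative close to `1` -/
lemma exists_zero {g : ℂ → ℂ} (hg : Differentiable ℂ g) (hc : ∀ w, ‖w‖ ≤ 3 → ‖g w - w‖ < 1 / 10) :
    ∃ w, ‖w‖ < 1 / 2 ∧ g w = 0 ∧ 7 / 8 ≤ ‖deriv g w‖ ∧ ‖deriv g w‖ ≤ 9 / 8 := by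
  have hz : ∃ w, ‖w‖ ≤ 1 / 3 ∧ g w = 0 := by
    by_contra hcon
    push Not at hcon
    have hd : DiffContOnCl ℂ (fun w => (g w)⁻¹) (Metric.ball (0 : ℂ) (1 / 3)) := by
      apply DifferentiableOn.diffContOnCl
      rw [closure_ball _ (by norm_num)]
      intro w hw
      rw [mem_closedBall_zero_iff] at hw
      exact ((hg w).inv (hcon w hw)).differentiableWithinAt
    have h1 : ∀ w ∈ frontier (Metric.ball (0 : ℂ) (1 / 3)), ‖(g w)⁻¹‖ ≤ 5 := by
      intro w hw
      rw [frontier_ball _ (by norm_num), mem_sphere_zero_iff_norm] at hw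
      have h2 := hc w (by rw [hw]; norm_num)
      have h3 : ‖w‖ ≤ ‖g w‖ + ‖g w - w‖ := by
        have : w = g w - (g w - w) := by ring
        calc ‖w‖ = ‖g w - (g w - w)‖ := by rw [← this]
          _ ≤ _ := norm_sub_le _ _
      rw [norm_inv]
      have h4 : 1 / 5 ≤ ‖g w‖ := by
        rw [hw] at h3
        linarith
      rw [inv_le_comm₀ (by linarith) (by norm_num)]
      linarith
    have h5 := Complex.norm_le_of_forall_mem_frontier_norm_le Metric.isBounded_ball hd h1
      (subset_closure (Metric.mem_ball_self (by norm_num)))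
    have h6 := hc 0 (by simp)
    rw [sub_zero] at h6
    rw [norm_inv] at h5
    have h7 : 0 < ‖g 0‖ := norm_pos_iff.2 (hcon 0 (by simp))
    rw [inv_le_comm₀ h7 (by norm_num)] at h5
    linarith
  obtain ⟨w, hw, hw0⟩ := hz
  refine ⟨w, by linarith, hw0, ?_⟩
  have h1 : ‖deriv (fun u => g u - u) w‖ ≤ (1 / 10) / 2 := by
    apply Complex.norm_deriv_le_of_forall_mem_sphere_norm_le (by norm_num)
    · exact (hg.sub differentiable_id).diffContOnCl
    · intro u hu
      rw [mem_sphere_iff_norm] at hu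
      apply (hc u ?_).le
      calc ‖u‖ = ‖(u - w) + w‖ := by ring_nf
        _ ≤ ‖u - w‖ + ‖w‖ := norm_add_le _ _
        _ ≤ 3 := by rw [hu]; linarith
  have h2 : deriv (fun u => g u - u) w = deriv g w - 1 := by
    rw [deriv_fun_sub (hg w) (differentiableAt_fun_id : DifferentiableAt ℂ (fun u : ℂ => u) w)]
    simp
  rw [h2] at h1
  constructor
  · have h3 : ‖(1 : ℂ)‖ ≤ ‖deriv g w‖ + ‖deriv g w - 1‖ := by
      calc ‖(1 : ℂ)‖ = ‖deriv g w - (deriv g w - 1)‖ := by ring_nf
        _ ≤ _ := norm_sub_le _ _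
    rw [norm_one] at h3
    linarith
  · have h3 : ‖deriv g w‖ ≤ ‖(1 : ℂ)‖ + ‖deriv g w - 1‖ := by
      calc ‖deriv g w‖ = ‖1 + (deriv g w - 1)‖ := by ring_nf
        _ ≤ _ := norm_add_le _ _
    rw [norm_one] at h3
    linarith

/-- zeros of the entire function attached to `F` in a disc -/
lemma zeros_finite {F : X} {z₀ : ℂ} (h0 : ev (coef F) z₀ ≠ 0) {R : ℝ} (hR : 0 < R) :
    {ζ : ℂ | ev (coef F) ζ = 0 ∧ ‖ζ - z₀‖ ≤ R}.Finite ∧
    ({ζ : ℂ | ev (coef F) ζ = 0 ∧ ‖ζ - z₀‖ ≤ R}.ncard : ℝ) ≤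
      ((3 * R + ‖z₀‖) ^ ((3 : ℝ) / 2) + |Real.log (sem 0 F / ‖ev (coef F) z₀‖)|) / Real.log 2 := by
  set A := {ζ : ℂ | ev (coef F) ζ = 0 ∧ ‖ζ - z₀‖ ≤ R} with hA
  have hf0 : 0 < ‖ev (coef F) z₀‖ := norm_pos_iff.2 h0
  have hsem : 0 < sem 0 F := by
    have := growth F z₀
    by_contra h
    have h2 : sem 0 F = 0 := le_antisymm (not_lt.1 h) (apply_nonneg _ _)
    rw [h2, mul_zero] at this
    linarith
  have hcard : ∀ S : Finset ℂ, (S : Set ℂ) ⊆ A → (S.card : ℝ) ≤
      ((3 * R + ‖z₀‖) ^ ((3 : ℝ) / 2) + |Real.log (sem 0 F / ‖ev (coef F) z₀‖)|) / Real.log 2 := by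
    intro S hS
    classical
    set S' := S.image (fun ζ => ζ - z₀) with hS'
    have hc : S'.card = S.card := Finset.card_image_of_injective _ (sub_left_injective)
    have h1 := zeros_bound hR S' (by
      intro ζ hζ
      obtain ⟨ξ, hξ, rfl⟩ := Finset.mem_image.1 hζ
      exact (hS hξ).2) (fun w => ev (coef F) (w + z₀))
      (Real.exp ((3 * R + ‖z₀‖) ^ ((3 : ℝ) / 2)) * sem 0 F)
      ((coef_ent F).differentiable.comp (differentiable_id.add_const z₀))
      (by
        intro w hw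
        refine (growth F _).trans ?_
        have h2 : ‖w + z₀‖ ≤ 3 * R + ‖z₀‖ := by
          rw [← hw]
          exact norm_add_le _ _
        gcongr)
      (by
        intro ζ hζ
        obtain ⟨ξ, hξ, rfl⟩ := Finset.mem_image.1 hζ
        simp only [sub_add_cancel]
        exact (hS hξ).1)
    rw [hc] at h1
    simp only [zero_add] at h1
    rw [le_div_iff₀ (Real.log_pos (by norm_num)), ← Real.log_pow]
    have h3 : (2 : ℝ) ^ S.card ≤ Real.exp ((3 * R + ‖z₀‖) ^ ((3 : ℝ) / 2)) *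
        (sem 0 F / ‖ev (coef F) z₀‖) := by
      rw [le_div_iff₀ (by positivity)] at h1
      rw [mul_div_assoc', le_div_iff₀ hf0]
      linarith
    have h4 := Real.log_le_log (by positivity) h3
    rw [Real.log_mul (Real.exp_pos _).ne' (by positivity), Real.log_exp] at h4
    have := le_abs_self (Real.log (sem 0 F / ‖ev (coef F) z₀‖))
    linarith
  have hfin : A.Finite := by
    by_contra hinf
    obtain ⟨N, hN⟩ := exists_nat_gt
      (((3 * R + ‖z₀‖) ^ ((3 : ℝ) / 2) + |Real.log (sem 0 F / ‖ev (coef F) z₀‖)|) / Real.log 2)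
    obtain ⟨S, hS, hSc⟩ := Set.Infinite.exists_subset_card_eq hinf N
    have := hcard S hS
    rw [hSc] at this
    linarith
  refine ⟨hfin, ?_⟩
  rw [Set.ncard_eq_toFinset_card _ hfin]
  apply hcard
  simp

/-- rectangle of parameters attached to a zero -/
noncomputable def rect (d : ℝ) (y : ℝ) (n : ℝ) : Set (ℝ × ℝ) :=
  Set.Icc ((Real.log (7 / 8) - Real.log d) / n) ((Real.log (9 / 8) - Real.log d) / n) ×ˢ
    Set.Icc ((y - 1) / n) ((y + 1) / n)

lemma rect_volume (d y : ℝ) {n : ℝ} (hn : 0 < n) : volume (rect d y n) ≤ ENNReal.ofReal (2 / n ^ 2) := by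
  unfold rect
  rw [Measure.volume_eq_prod, Measure.prod_prod, Real.volume_Icc, Real.volume_Icc,
    ← ENNReal.ofReal_mul' (by
      rw [← sub_div]
      apply div_nonneg _ hn.le
      linarith)]
  apply ENNReal.ofReal_le_ofReal
  have h1 : Real.log (9 / 8) ≤ 1 / 8 := by
    have := Real.log_le_sub_one_of_pos (show (0 : ℝ) < 9 / 8 by norm_num)
    linarith
  have h2 : -Real.log (7 / 8) ≤ 1 / 7 := by
    have := Real.log_le_sub_one_of_pos (show (0 : ℝ) < 8 / 7 by norm_num)
    rw [← Real.log_inv]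
    have h3 : ((7 : ℝ) / 8)⁻¹ = 8 / 7 := by norm_num
    rw [h3]
    linarith
  rw [← sub_div, ← sub_div, div_mul_div_comm]
  have h3 : n * n = n ^ 2 := by ring
  rw [h3]
  apply div_le_div_of_nonneg_right _ (by positivity)
  nlinarith

/-- a visit forces the parameters into a small rectangle -/
lemma visit_rect {F : X} {c t : ℝ} {n : ℕ} (hn : 1 ≤ n)
    (hv : (Complex.exp c) ^ n • T (n * (1 + t * Complex.I)) F ∈ U0) (ht : t ∈ Set.Icc (0 : ℝ) 1) :
    ∃ ζ : ℂ, ev (coef F) ζ = 0 ∧ ‖ζ‖ ≤ 3 * n ∧ ⌊ζ.re + 1 / 2⌋₊ = n ∧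
      (c, t) ∈ rect ‖deriv (ev (coef F)) ζ‖ ζ.im n := by
  set z : ℂ := 1 + t * Complex.I with hz
  set G : X := (Complex.exp c) ^ n • T (n * z) F with hG
  set f := ev (coef F) with hf
  have hev : ∀ w, ev (coef G) w = (Complex.exp c) ^ n * f (n * z + w) := by
    intro w
    rw [hG, ev_smul, ev_T]
  have hfd : Differentiable ℂ f := (coef_ent F).differentiable
  obtain ⟨w, hw, hw0, hd1, hd2⟩ := exists_zero (coef_ent G).differentiable (fun w hw => U0_close hv hw)
  have hn0 : (0 : ℝ) < n := by exact_mod_cast hn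
  refine ⟨n * z + w, ?_, ?_, ?_, ?_⟩
  · rw [hev] at hw0
    exact (mul_eq_zero.1 hw0).resolve_left (pow_ne_zero _ (Complex.exp_ne_zero _))
  · have h1 : ‖z‖ ≤ 2 := by
      rw [hz]
      refine (norm_add_le _ _).trans ?_
      rw [norm_one, norm_mul, Complex.norm_I, mul_one, Complex.norm_real, Real.norm_of_nonneg ht.1]
      linarith [ht.2]
    calc ‖(n : ℂ) * z + w‖ ≤ ‖(n : ℂ) * z‖ + ‖w‖ := norm_add_le _ _
      _ ≤ n * 2 + 1 / 2 := by
        rw [norm_mul, Complex.norm_natCast]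
        gcongr
      _ ≤ 3 * n := by
        have : (1 : ℝ) ≤ n := by exact_mod_cast hn
        linarith
  · have h1 : ((n : ℂ) * z + w).re = n + w.re := by
      simp [hz]
    rw [h1]
    have h2 := (Complex.abs_re_le_norm w).trans_lt hw
    rw [abs_lt] at h2
    rw [Nat.floor_eq_iff (by linarith)]
    constructor <;> linarith
  · have him : ((n : ℂ) * z + w).im = n * t + w.im := by
      simp [hz]
    have hder : deriv (ev (coef G)) w = (Complex.exp c) ^ n * deriv f (n * z + w) := by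
      have h1 : ev (coef G) = fun w => (Complex.exp c) ^ n * f (n * z + w) := funext hev
      rw [h1, deriv_const_mul_field]
      congr 1
      exact deriv_comp_const_add f _ _
    have hnorm : ‖deriv (ev (coef G)) w‖ = Real.exp (c * n) * ‖deriv f (n * z + w)‖ := by
      rw [hder, norm_mul, norm_pow, Complex.norm_exp, Complex.ofReal_re, ← Real.exp_nat_mul,
        mul_comm (n : ℝ) c]
    rw [hnorm] at hd1 hd2
    set d := ‖deriv f (n * z + w)‖ with hdd
    have hd0 : 0 < d := by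
      by_contra h
      have h3 : d = 0 := le_antisymm (not_lt.1 h) (norm_nonneg _)
      rw [h3, mul_zero] at hd1
      linarith
    have e1 := Real.log_le_log (by norm_num) hd1
    have e2 := Real.log_le_log (by positivity) hd2
    rw [Real.log_mul (Real.exp_pos _).ne' hd0.ne', Real.log_exp] at e1 e2
    have h2 := (Complex.abs_im_le_norm w).trans_lt hw
    rw [abs_lt] at h2
    unfold rect
    refine Set.mem_prod.2 ⟨⟨?_, ?_⟩, ⟨?_, ?_⟩⟩
    · rw [div_le_iff₀ hn0]; linarith
    · rw [le_div_iff₀ hn0]; linarith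
    · rw [div_le_iff₀ hn0, him]; linarith
    · rw [le_div_iff₀ hn0, him]; linarith

end Pool.Agent.X187.HG
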