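import Mathlib

open Filter Topology

namespace Pool.Agent.X187.HG

/-- The power series function. -/
noncomputable def ev (c : ℕ → ℂ) (z : ℂ) : ℂ := ∑' n, c n * z ^ n

/-- Coefficients of an entire function. -/
def Ent (c : ℕ → ℂ) : Prop := ∀ r : ℝ, 0 ≤ r → Summable fun n => ‖c n‖ * r ^ n

lemma Ent.summable {c : ℕ → ℂ} (h : Ent c) (z : ℂ) : Summable fun n => c n * z ^ n := by
  apply Summable.of_norm
  simpa [norm_mul, norm_pow] using h ‖z‖ (norm_nonneg z)

lemma Ent.differentiable {c : ℕ → ℂ} (h : Ent c) : Differentiable ℂ (ev c) := by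
  intro z
  have h1 : DifferentiableOn ℂ (fun w => ∑' n, c n * w ^ n) (Metric.ball 0 (‖z‖ + 1)) := by
    apply Complex.differentiableOn_tsum_of_summable_norm (h (‖z‖ + 1) (by positivity))
    · intro n
      fun_prop
    · exact Metric.isOpen_ball
    · intro n w hw
      rw [norm_mul, norm_pow]
      have : ‖w‖ ≤ ‖z‖ + 1 := by
        rw [mem_ball_zero_iff] at hw
        exact hw.le
      gcongr
  exact (h1 z (by simp)).differentiableAt (Metric.isOpen_ball.mem_nhds (by simp))

lemma Ent.hasFPowerSeries {c : ℕ → ℂ} (h : Ent c) :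
    HasFPowerSeriesAt (ev c) (FormalMultilinearSeries.ofScalars ℂ c) 0 := by
  have hr : 0 < (FormalMultilinearSeries.ofScalars ℂ c).radius := by
    have h1 : ((1 : NNReal) : ENNReal) ≤ (FormalMultilinearSeries.ofScalars ℂ c).radius := by
      apply FormalMultilinearSeries.le_radius_of_summable
      have := h 1 zero_le_one
      refine Summable.of_nonneg_of_le (fun n => by positivity) (fun n => ?_) this
      rw [FormalMultilinearSeries.ofScalars_norm]
      simp
    exact lt_of_lt_of_le (by norm_num) h1
  have h2 := (FormalMultilinearSeries.ofScalars ℂ c).hasFPowerSeriesOnBall hr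
  have h3 : (FormalMultilinearSeries.ofScalars ℂ c).sum = ev c := by
    funext z
    exact FormalMultilinearSeries.ofScalars_sum_eq c z
  rw [h3] at h2
  exact ⟨_, h2⟩

lemma Ent.eq_zero {c : ℕ → ℂ} (h : Ent c) {z₀ : ℂ} (h0 : ∀ᶠ z in 𝓝 z₀, ev c z = 0) : c = 0 := by
  have h1 : AnalyticOnNhd ℂ (ev c) Set.univ := h.differentiable.differentiableOn.analyticOnNhd isOpen_univ
  have h2 : Set.EqOn (ev c) 0 Set.univ :=
    h1.eqOn_zero_of_preconnected_of_eventuallyEq_zero isPreconnected_univ (Set.mem_univ z₀) h0
  have h3 : ev c = 0 := by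
    funext z
    exact h2 (Set.mem_univ z)
  have h4 := h.hasFPowerSeries
  rw [h3] at h4
  have h5 := h4.eq_zero
  rw [FormalMultilinearSeries.ofScalars_series_eq_zero] at h5
  exact h5

/-- Counting zeros: if `f` is entire, bounded by `M` on the sphere of radius `3 R` and vanishes at
the points of a finite subset of the closed ball of radius `R` then `‖f 0‖ ≤ M / 2 ^ |S|`. -/
lemma zeros_bound {R : ℝ} (hR : 0 < R) (S : Finset ℂ) (hS : ∀ ζ ∈ S, ‖ζ‖ ≤ R) :
    ∀ (f : ℂ → ℂ) (M : ℝ), Differentiable ℂ f → (∀ z, ‖z‖ = 3 * R → ‖f z‖ ≤ M) →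
      (∀ ζ ∈ S, f ζ = 0) → ‖f 0‖ ≤ M / 2 ^ S.card := by
  classical
  induction S using Finset.induction_on with
  | empty =>
    intro f M hf hM _
    simp only [Finset.card_empty, pow_zero, div_one]
    have h1 : frontier (Metric.ball (0 : ℂ) (3 * R)) = Metric.sphere 0 (3 * R) :=
      frontier_ball _ (by positivity)
    refine Complex.norm_le_of_forall_mem_frontier_norm_le Metric.isBounded_ball
      (hf.diffContOnCl (s := Metric.ball (0 : ℂ) (3 * R))) ?_
      (subset_closure (Metric.mem_ball_self (by positivity)))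
    intro z hz
    rw [h1, mem_sphere_zero_iff_norm] at hz
    exact hM z hz
  | insert ζ S hζ ih =>
    intro f M hf hM h0
    have hζR := hS ζ (Finset.mem_insert_self _ _)
    have hg : Differentiable ℂ (dslope f ζ) := by
      intro z
      have h1 : DifferentiableOn ℂ (dslope f ζ) Set.univ :=
        (Complex.differentiableOn_dslope univ_mem).2 hf.differentiableOn
      exact h1.differentiableAt univ_mem
    have hfz : f ζ = 0 := h0 ζ (Finset.mem_insert_self _ _)
    have h1 := ih (fun ζ' h => hS ζ' (Finset.mem_insert_of_mem h)) (dslope f ζ) (M / (2 * R)) hg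
      (by
        intro z hz
        have hne : z ≠ ζ := by
          rintro rfl
          linarith
        rw [dslope_of_ne _ hne, slope_def_field, hfz, sub_zero, norm_div]
        have h2 : 2 * R ≤ ‖z - ζ‖ := by
          have := norm_sub_norm_le z ζ
          linarith
        have h3 := hM z hz
        have h4 : 0 ≤ M := (norm_nonneg _).trans h3
        gcongr)
      (by
        intro ζ' h
        have hne : ζ' ≠ ζ := by
          rintro rfl
          exact hζ h
        rw [dslope_of_ne _ hne, slope_def_field, hfz, h0 ζ' (Finset.mem_insert_of_mem h)]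
        simp)
    rw [Finset.card_insert_of_notMem hζ]
    have h2 : f 0 = (0 - ζ) * dslope f ζ 0 := by
      have := sub_smul_dslope f ζ 0
      rw [smul_eq_mul, hfz, sub_zero] at this
      exact this.symm
    rw [h2, norm_mul, zero_sub, norm_neg]
    have h5 : 0 ≤ M / (2 * R) / 2 ^ S.card := (norm_nonneg _).trans h1
    calc ‖ζ‖ * ‖dslope f ζ 0‖ ≤ R * (M / (2 * R) / 2 ^ S.card) := by gcongr
      _ = M / 2 ^ (S.card + 1) := by
        rw [pow_succ]
        field_simp

end Pool.Agent.X187.HG
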