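import Pool.Agent.X187.HG.Tr

open Filter Topology
open scoped ENNReal

namespace Pool.Agent.X187.HG

/-- absolutely summable sequences -/
noncomputable abbrev L1 := lp (fun _ : ℕ => ℂ) 1

/-- the ambient product -/
noncomputable abbrev E := ℕ → L1

/-- weights -/
noncomputable def W (k n : ℕ) : ℝ := ((k : ℝ) + 1) ^ n * sg n

lemma W_pos (k n : ℕ) : 0 < W k n := mul_pos (by positivity) (sg_pos n)

lemma W_zero (n : ℕ) : W 0 n = sg n := by simp [W]

lemma W_mono {k l : ℕ} (h : k ≤ l) (n : ℕ) : W k n ≤ W l n := by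
  unfold W
  have := (sg_pos n).le
  have h2 : (k : ℝ) ≤ l := by exact_mod_cast h
  gcongr

lemma one_le_sg (n : ℕ) : 1 ≤ sg n := by
  have := sg_mono (Nat.zero_le n)
  simpa [sg] using this

lemma memL1 {a : ℕ → ℂ} (h : Summable fun n => ‖a n‖) : Memℓp a 1 := by
  rw [memℓp_gen_iff (by norm_num)]
  simpa using h

lemma L1_summable (f : L1) : Summable fun n => ‖f n‖ := by
  have := lp.memℓp f
  rw [memℓp_gen_iff (by norm_num)] at this
  simpa using this

lemma norm_L1 (f : L1) : ‖f‖ = ∑' n, ‖f n‖ := by
  rw [lp.norm_eq_tsum_rpow (by norm_num)]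
  simp

lemma continuous_coord (n : ℕ) : Continuous fun f : L1 => f n := by
  have h : LipschitzWith 1 fun f : L1 => f n := by
    apply LipschitzWith.of_dist_le_mul
    intro f g
    rw [dist_eq_norm, dist_eq_norm, NNReal.coe_one, one_mul]
    have := lp.norm_apply_le_norm (p := 1) (by norm_num) (f - g) n
    simpa using this
  exact h.continuous

/-- the space, as a closed subspace of a countable product of Banach spaces -/
noncomputable def XS : Submodule ℂ E where
  carrier := {F | ∀ k n, F k n * (W 0 n : ℂ) = F 0 n * (W k n : ℂ)}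
  add_mem' := by
    intro F G hF hG k n
    have h1 := hF k n
    have h2 := hG k n
    simp only [Pi.add_apply, lp.coeFn_add] at *
    rw [add_mul, add_mul, h1, h2]
  zero_mem' := by
    intro k n
    simp
  smul_mem' := by
    intro a F hF k n
    have h1 := hF k n
    simp only [Pi.smul_apply, lp.coeFn_smul, smul_eq_mul] at *
    rw [mul_assoc, mul_assoc, h1]

/-- the Fréchet space of the example -/
noncomputable abbrev X := XS

lemma isClosed_XS : IsClosed (XS : Set E) := by
  have : (XS : Set E) = ⋂ k, ⋂ n, {F : E | F k n * (W 0 n : ℂ) = F 0 n * (W k n : ℂ)} := by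
    ext F
    simp only [Set.mem_iInter]
    rfl
  rw [this]
  refine isClosed_iInter fun k => isClosed_iInter fun n => isClosed_eq ?_ ?_
  · exact ((continuous_coord n).comp (continuous_apply k)).mul continuous_const
  · exact ((continuous_coord n).comp (continuous_apply 0)).mul continuous_const

instance : CompleteSpace X := isClosed_XS.completeSpace_coe

instance : IsUniformAddGroup X := IsUniformAddGroup.comap (XS.subtype : XS →ₗ[ℂ] E)

instance : (uniformity X).IsCountablyGenerated := Filter.comap.isCountablyGenerated _ _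

lemma isInducing : Topology.IsInducing (XS.subtype : X → E) := Topology.IsInducing.subtypeVal

/-- the `k`-th seminorm -/
noncomputable def sem (k : ℕ) : Seminorm ℂ X :=
  (normSeminorm ℂ L1).comp ((LinearMap.proj k : E →ₗ[ℂ] L1).comp XS.subtype)

lemma sem_apply (k : ℕ) (F : X) : sem k F = ‖F.1 k‖ := rfl

lemma continuous_sem (k : ℕ) : Continuous (sem k) := by
  have : (sem k : X → ℝ) = fun F => ‖F.1 k‖ := rfl
  rw [this]
  exact ((continuous_apply k).comp continuous_subtype_val).norm

lemma tendsto_iff {ι : Type*} {l : Filter ι} {F : ι → X} {G : X} :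
    Tendsto F l (𝓝 G) ↔ ∀ k, Tendsto (fun i => sem k (F i - G)) l (𝓝 0) := by
  rw [tendsto_subtype_rng, tendsto_pi_nhds]
  refine forall_congr' fun k => ?_
  rw [tendsto_iff_norm_sub_tendsto_zero]
  rfl

lemma withSeminorms : WithSeminorms (sem : SeminormFamily ℂ X ℕ) := by
  have h1 : ∀ _ : ℕ, WithSeminorms (fun _ : Fin 1 => normSeminorm ℂ L1) :=
    fun _ => norm_withSeminorms ℂ L1
  have h2 := withSeminorms_pi h1
  have h3 := LinearMap.withSeminorms_induced h2 XS.subtype
  let e : ℕ ≃ (Σ _ : ℕ, Fin 1) :=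
    { toFun := fun k => ⟨k, 0⟩
      invFun := fun p => p.1
      left_inv := fun k => rfl
      right_inv := fun p => by
        obtain ⟨k, i⟩ := p
        have : i = 0 := Subsingleton.elim _ _
        rw [this] }
  exact h3.congr_equiv e

/-- Taylor coefficients -/
noncomputable def coef (F : X) (n : ℕ) : ℂ := F.1 0 n / (sg n : ℂ)

lemma coef_spec (F : X) (k n : ℕ) : F.1 k n = coef F n * (W k n : ℂ) := by
  have h := F.2 k n
  rw [W_zero] at h
  have h1 : (sg n : ℂ) ≠ 0 := by exact_mod_cast (sg_pos n).ne'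
  unfold coef
  field_simp
  exact h

lemma coef_norm (F : X) (k n : ℕ) : ‖F.1 k n‖ = ‖coef F n‖ * W k n := by
  rw [coef_spec, norm_mul, Complex.norm_real, Real.norm_of_nonneg (W_pos k n).le]

lemma coef_summable (F : X) (k : ℕ) : Summable fun n => ‖coef F n‖ * W k n := by
  simp_rw [← coef_norm]
  exact L1_summable _

lemma sem_eq (F : X) (k : ℕ) : sem k F = ∑' n, ‖coef F n‖ * W k n := by
  simp_rw [← coef_norm]
  rw [sem_apply, norm_L1]

lemma coef_add (F G : X) : coef (F + G) = coef F + coef G := by
  funext n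
  simp [coef, add_div]

lemma coef_smul (a : ℂ) (F : X) : coef (a • F) = a • coef F := by
  funext n
  simp [coef, mul_div_assoc]

lemma coef_sub (F G : X) : coef (F - G) = coef F - coef G := by
  funext n
  simp [coef, sub_div]

lemma coef_inj {F G : X} (h : coef F = coef G) : F = G := by
  apply Subtype.ext
  funext k
  ext n
  rw [coef_spec, coef_spec, h]

/-- element of the space with given coefficients -/
noncomputable def mk (c : ℕ → ℂ) (h : ∀ k, Summable fun n => ‖c n‖ * W k n) : X :=
  ⟨fun k => ⟨fun n => c n * (W k n : ℂ), memL1 (by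
    refine (h k).congr fun n => ?_
    rw [norm_mul, Complex.norm_real, Real.norm_of_nonneg (W_pos k n).le])⟩, by
    intro k n
    change c n * (W k n : ℂ) * (W 0 n : ℂ) = c n * (W 0 n : ℂ) * (W k n : ℂ)
    ring⟩

lemma coef_mk (c : ℕ → ℂ) (h : ∀ k, Summable fun n => ‖c n‖ * W k n) : coef (mk c h) = c := by
  funext n
  have h1 : (sg n : ℂ) ≠ 0 := by exact_mod_cast (sg_pos n).ne'
  change c n * (W 0 n : ℂ) / (sg n : ℂ) = c n
  rw [W_zero]
  field_simp

lemma coef_ent (F : X) : Ent (coef F) := by
  intro r hr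
  obtain ⟨k, hk⟩ := exists_nat_ge r
  refine Summable.of_nonneg_of_le (fun n => by positivity) (fun n => ?_) (coef_summable F k)
  unfold W
  have h1 := one_le_sg n
  calc ‖coef F n‖ * r ^ n = ‖coef F n‖ * (r ^ n * 1) := by ring
    _ ≤ ‖coef F n‖ * (((k : ℝ) + 1) ^ n * sg n) := by
      gcongr
      linarith

lemma growth (F : X) (z : ℂ) : ‖ev (coef F) z‖ ≤ Real.exp (‖z‖ ^ ((3 : ℝ) / 2)) * sem 0 F := by
  rw [sem_eq]
  have h := coef_summable F 0
  simp_rw [W_zero] at *
  exact ev_growth h z

lemma ev_inj {F G : X} (h : ∀ z, ev (coef F) z = ev (coef G) z) : F = G := by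
  apply coef_inj
  have h1 : Ent (coef (F - G)) := coef_ent _
  have h2 : coef (F - G) = 0 := by
    apply h1.eq_zero (z₀ := 0)
    refine Eventually.of_forall fun z => ?_
    rw [coef_sub]
    unfold ev
    simp only [Pi.sub_apply, sub_mul]
    rw [((coef_ent F).summable z).tsum_sub ((coef_ent G).summable z), sub_eq_zero]
    exact h z
  rw [coef_sub, sub_eq_zero] at h2
  exact h2

end Pool.Agent.X187.HG
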