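import Pool.Agent.X187.HG.PS

open Filter Topology Finset

namespace Pool.Agent.X187.HG

/-- The weight `(n!) ^ (2/3)`. -/
noncomputable def sg (n : ℕ) : ℝ := (n.factorial : ℝ) ^ ((2 : ℝ) / 3)

lemma sg_pos (n : ℕ) : 0 < sg n := Real.rpow_pos_of_pos (by exact_mod_cast n.factorial_pos) _

lemma sg_mono {m n : ℕ} (h : m ≤ n) : sg m ≤ sg n := by
  unfold sg
  have : (m.factorial : ℝ) ≤ n.factorial := by exact_mod_cast Nat.factorial_le h
  exact Real.rpow_le_rpow (by positivity) this (by norm_num)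

/-- coefficients of the translated function -/
noncomputable def tr (z : ℂ) (c : ℕ → ℂ) (n : ℕ) : ℂ :=
  ∑' m, ((n + m).choose n : ℂ) * z ^ m * c (n + m)

lemma summable_of_antidiag {F : ℕ × ℕ → ℝ} (hF : ∀ p, 0 ≤ F p)
    (h : Summable fun N => ∑ p ∈ antidiagonal N, F p) : Summable F := by
  rw [← (Finset.HasAntidiagonal.sigmaAntidiagonalEquivProd (A := ℕ)).summable_iff]
  refine (summable_sigma_of_nonneg fun p => hF _).2 ⟨fun n => (hasSum_fintype _).summable, ?_⟩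
  convert h using 2 with N
  rw [tsum_fintype]
  exact Finset.sum_coe_sort (antidiagonal N) F

lemma tsum_antidiag {α : Type*} [NormedAddCommGroup α] [CompleteSpace α] {F : ℕ × ℕ → α}
    (h : Summable F) : ∑' n, ∑' m, F (n, m) = ∑' N, ∑ p ∈ antidiagonal N, F p := by
  rw [← h.tsum_prod]
  rw [← (Finset.HasAntidiagonal.sigmaAntidiagonalEquivProd (A := ℕ)).tsum_eq F]
  have h2 := (Finset.HasAntidiagonal.sigmaAntidiagonalEquivProd (A := ℕ)).summable_iff.2 h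
  have h3 := h2.tsum_sigma' (fun n => (hasSum_fintype _).summable)
  simp only [Function.comp_apply] at h3
  rw [h3]
  congr 1
  funext N
  rw [tsum_fintype]
  exact Finset.sum_coe_sort (antidiagonal N) F

/-- the basic double summability -/
lemma key_summable {c : ℕ → ℂ} {z : ℂ} {r : ℝ} (hr : 0 ≤ r)
    (h : Summable fun N => ‖c N‖ * ((r + ‖z‖) ^ N * sg N)) :
    Summable (fun p : ℕ × ℕ => r ^ p.1 * sg p.1 * (((p.1 + p.2).choose p.1 : ℝ) * ‖z‖ ^ p.2 *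
      ‖c (p.1 + p.2)‖)) ∧
    ∑' p : ℕ × ℕ, r ^ p.1 * sg p.1 * (((p.1 + p.2).choose p.1 : ℝ) * ‖z‖ ^ p.2 *
      ‖c (p.1 + p.2)‖) ≤ ∑' N, ‖c N‖ * ((r + ‖z‖) ^ N * sg N) := by
  set F : ℕ × ℕ → ℝ := fun p => r ^ p.1 * sg p.1 * (((p.1 + p.2).choose p.1 : ℝ) * ‖z‖ ^ p.2 *
      ‖c (p.1 + p.2)‖) with hF
  have hF0 : ∀ p, 0 ≤ F p := fun p => by
    have := (sg_pos p.1).le
    positivity
  have hle : ∀ N, ∑ p ∈ antidiagonal N, F p ≤ ‖c N‖ * ((r + ‖z‖) ^ N * sg N) := by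
    intro N
    rw [(Commute.all r ‖z‖).add_pow', Finset.sum_mul, Finset.mul_sum]
    refine Finset.sum_le_sum fun p hp => ?_
    have hpN := mem_antidiagonal.1 hp
    simp only [hF, hpN, nsmul_eq_mul]
    have h1 : sg p.1 ≤ sg N := sg_mono (by omega)
    calc r ^ p.1 * sg p.1 * ((N.choose p.1 : ℝ) * ‖z‖ ^ p.2 * ‖c N‖)
        ≤ r ^ p.1 * sg N * ((N.choose p.1 : ℝ) * ‖z‖ ^ p.2 * ‖c N‖) := by gcongr
      _ = _ := by ring
  have hs : Summable fun N => ∑ p ∈ antidiagonal N, F p :=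
    Summable.of_nonneg_of_le (fun N => Finset.sum_nonneg fun p _ => hF0 p) hle h
  have hFs := summable_of_antidiag hF0 hs
  refine ⟨hFs, ?_⟩
  rw [hFs.tsum_prod, tsum_antidiag hFs]
  exact hs.tsum_le_tsum hle h

lemma tr_summable_inner {c : ℕ → ℂ} {z : ℂ} {r : ℝ} (hr : 0 < r)
    (h : Summable fun N => ‖c N‖ * ((r + ‖z‖) ^ N * sg N)) (n : ℕ) :
    Summable fun m => ‖((n + m).choose n : ℂ) * z ^ m * c (n + m)‖ := by
  have h1 := (key_summable hr.le h).1.prod_factor n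
  have h2 : r ^ n * sg n ≠ 0 := (mul_pos (by positivity) (sg_pos n)).ne'
  have h3 := (summable_mul_left_iff h2).1 h1
  refine h3.congr fun m => ?_
  rw [norm_mul, norm_mul, norm_pow, Complex.norm_natCast]

lemma tr_bound {c : ℕ → ℂ} {z : ℂ} {r : ℝ} (hr : 0 < r)
    (h : Summable fun N => ‖c N‖ * ((r + ‖z‖) ^ N * sg N)) :
    (Summable fun n => ‖tr z c n‖ * (r ^ n * sg n)) ∧
    ∑' n, ‖tr z c n‖ * (r ^ n * sg n) ≤ ∑' N, ‖c N‖ * ((r + ‖z‖) ^ N * sg N) := by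
  have hk := key_summable hr.le h
  have hle : ∀ n, ‖tr z c n‖ * (r ^ n * sg n) ≤ ∑' m, r ^ n * sg n *
      (((n + m).choose n : ℝ) * ‖z‖ ^ m * ‖c (n + m)‖) := by
    intro n
    rw [tsum_mul_left, mul_comm]
    have h0 : 0 ≤ r ^ n * sg n := (mul_pos (by positivity) (sg_pos n)).le
    gcongr
    refine (norm_tsum_le_tsum_norm (tr_summable_inner hr h n)).trans (le_of_eq ?_)
    congr 1
    funext m
    rw [norm_mul, norm_mul, norm_pow, Complex.norm_natCast]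
  have hs : Summable fun n => ∑' m, r ^ n * sg n *
      (((n + m).choose n : ℝ) * ‖z‖ ^ m * ‖c (n + m)‖) := hk.1.prod
  have h1 : Summable fun n => ‖tr z c n‖ * (r ^ n * sg n) :=
    Summable.of_nonneg_of_le (fun n => by have := (sg_pos n).le; positivity) hle hs
  refine ⟨h1, (h1.tsum_le_tsum hle hs).trans ?_⟩
  rw [← hk.1.tsum_prod]
  exact hk.2

/-- evaluation of the translated function -/
lemma ev_tr {c : ℕ → ℂ} {z w : ℂ} (h : Ent c) : ev (tr z c) w = ev c (z + w) := by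
  have hs : Summable fun p : ℕ × ℕ => ((p.1 + p.2).choose p.1 : ℂ) * z ^ p.2 * c (p.1 + p.2) *
      w ^ p.1 := by
    apply Summable.of_norm
    apply summable_of_antidiag (fun p => norm_nonneg _)
    refine (h (‖w‖ + ‖z‖) (by positivity)).congr fun N => ?_
    rw [(Commute.all ‖w‖ ‖z‖).add_pow', Finset.mul_sum]
    refine Finset.sum_congr rfl fun p hp => ?_
    have hpN := mem_antidiagonal.1 hp
    rw [hpN]
    simp only [norm_mul, norm_pow, Complex.norm_natCast, nsmul_eq_mul]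
    ring
  have h1 := tsum_antidiag hs
  unfold ev tr
  have h2 : ∀ n, (∑' m, ((n + m).choose n : ℂ) * z ^ m * c (n + m)) * w ^ n =
      ∑' m, ((n + m).choose n : ℂ) * z ^ m * c (n + m) * w ^ n := fun n => by
    rw [tsum_mul_right]
  simp_rw [h2]
  rw [h1]
  congr 1
  funext N
  rw [add_comm z w, (Commute.all w z).add_pow', Finset.mul_sum]
  refine Finset.sum_congr rfl fun p hp => ?_
  have hpN := mem_antidiagonal.1 hp
  rw [hpN]
  simp only [nsmul_eq_mul]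
  ring

/-- growth of the entire function -/
lemma sup_bound (x : ℝ) (hx : 0 ≤ x) (n : ℕ) :
    x ^ n ≤ Real.exp (x ^ ((3 : ℝ) / 2)) * sg n := by
  have h1 : (x ^ ((3 : ℝ) / 2)) ^ n / n.factorial ≤ Real.exp (x ^ ((3 : ℝ) / 2)) :=
    Real.pow_div_factorial_le_exp _ (by positivity) n
  have h2 : ((x ^ ((3 : ℝ) / 2)) ^ n / n.factorial) ^ ((2 : ℝ) / 3) = x ^ n / sg n := by
    rw [Real.div_rpow (by positivity) (by positivity)]
    congr 1
    rw [← Real.rpow_natCast, ← Real.rpow_mul hx, ← Real.rpow_mul hx]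
    rw [← Real.rpow_natCast x n]
    congr 1
    ring
  have h3 : ((x ^ ((3 : ℝ) / 2)) ^ n / n.factorial) ^ ((2 : ℝ) / 3) ≤
      (Real.exp (x ^ ((3 : ℝ) / 2))) ^ ((2 : ℝ) / 3) :=
    Real.rpow_le_rpow (by positivity) h1 (by norm_num)
  rw [h2] at h3
  have h4 : (Real.exp (x ^ ((3 : ℝ) / 2))) ^ ((2 : ℝ) / 3) ≤ Real.exp (x ^ ((3 : ℝ) / 2)) := by
    rw [← Real.exp_mul]
    apply Real.exp_le_exp.2
    have : 0 ≤ x ^ ((3 : ℝ) / 2) := by positivity
    linarith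
  have h5 := h3.trans h4
  rwa [div_le_iff₀ (sg_pos n)] at h5

lemma ev_growth {c : ℕ → ℂ} (h : Summable fun n => ‖c n‖ * sg n) (z : ℂ) :
    ‖ev c z‖ ≤ Real.exp (‖z‖ ^ ((3 : ℝ) / 2)) * ∑' n, ‖c n‖ * sg n := by
  have hle : ∀ n, ‖c n * z ^ n‖ ≤ Real.exp (‖z‖ ^ ((3 : ℝ) / 2)) * (‖c n‖ * sg n) := by
    intro n
    rw [norm_mul, norm_pow]
    calc ‖c n‖ * ‖z‖ ^ n ≤ ‖c n‖ * (Real.exp (‖z‖ ^ ((3 : ℝ) / 2)) * sg n) := by
          gcongr
          exact sup_bound _ (norm_nonneg z) n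
      _ = _ := by ring
  have hs := h.mul_left (Real.exp (‖z‖ ^ ((3 : ℝ) / 2)))
  have h1 : Summable fun n => ‖c n * z ^ n‖ := Summable.of_nonneg_of_le (fun n => norm_nonneg _) hle hs
  rw [← tsum_mul_left]
  exact (norm_tsum_le_tsum_norm h1).trans (h1.tsum_le_tsum hle hs)

end Pool.Agent.X187.HG
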